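import Pool.Agent.H23.QCF.Targets

/-!
MP_63b6b1_nt, row KCHI: the symbol as a homomorphism.
-/

set_option autoImplicit false

open NumberField IsDedekindDomain Pool.Agent.H23.QCF
open Pool.Agent.H32.QC (Sol hil Iso FPl Pl ic hs sqAt HasseConic ProdFormula Prescribed)

namespace Pool.Agent.H69.QCF

theorem chi_pm {K : Type} [Field K] [NumberField K] (p : Pl K) (a b : K) :
    hs p a b = 1 ∨ hs p a b = -1 := by
  rcases p with v | φ
  · show hil (ic v a) (ic v b) = 1 ∨ hil (ic v a) (ic v b) = -1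
    unfold hil
    split_ifs
    · exact Or.inl rfl
    · exact Or.inr rfl
  · show hil (φ a) (φ b) = 1 ∨ hil (φ a) (φ b) = -1
    unfold hil
    split_ifs
    · exact Or.inl rfl
    · exact Or.inr rfl

theorem pf_CHI (h1 : T_HMUL) (h2 : T_HSQ) (h3 : T_HSYM) : T_CHI := by
  intro K _ _ p t ht
  classical
  have hval : ∀ a : Kˣ, (((if hs p (a : K) t = 1 then 1 else -1 : ℤˣ) : ℤˣ) : ℤ) =
      hs p (a : K) t := by
    intro a
    rcases chi_pm p (a : K) t with h | h
    · rw [if_pos h, h]
      rfl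
    · have h' : hs p (a : K) t ≠ 1 := by
        rw [h]
        norm_num
      rw [if_neg h', h]
      rfl
  refine ⟨MonoidHom.mk' (fun a : Kˣ => (if hs p (a : K) t = 1 then 1 else -1 : ℤˣ)) ?_, ?_, ?_⟩
  · intro a b
    apply Units.ext
    rw [hval, Units.val_mul, Units.val_mul, hval, hval]
    exact h1 K p a b t a.ne_zero b.ne_zero ht
  · intro a
    exact hval a
  · intro a ha
    have h4 : hs p (a : K) t = 1 := by
      rw [h3 K p (a : K) t]
      exact h2 K p t (a : K) ha
    show (if hs p (a : K) t = 1 then 1 else -1 : ℤˣ) = 1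
    rw [if_pos h4]

end Pool.Agent.H69.QCF
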